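import Pool.Agent.NG.Exp
import Pool.Agent.NG.Far
import Pool.Agent.NG.Rect
import Pool.Agent.NG.Mom
import Pool.Agent.NG.Cover
import Pool.Agent.NG.Low
import Pool.Agent.NG.Cyc
import Pool.Agent.NG.Diag
import Pool.Agent.NG.Comp
import Pool.Agent.NG.Cnf
import Pool.Agent.NG.Final

set_option autoImplicit false

/-!
# MP_4ed1f9_lc: one subtraction is exponentially powerful for exact model counters

For all large even `n = 2 m` there is a 3-CNF formula `φ (x, y)` with `n` variables `x`, `O(n)`
variables `y` and `O(n)` clauses whose number of models is `2 ^ n - #D` for a d-DNNF `D` on the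
variables `x` with `O(n)` gates (a disjoint union of three ordered binary decision diagrams of
width 9), but every DNNF for `φ`, and every DNNF for the complement of `D`, has `2 ^ (c n)` gates.
In particular d-DNNFs are not closed under negation, and circuits with deterministic OR gates,
decomposable AND gates and a single NOT gate are exponentially more succinct than DNNFs.

The definitions are in `Pool/Agent/NG/Defs.lean`.
-/

namespace Pool.Agent.Results.MP_4ed1f9_lc.NegationGap

open Finset Pool.Agent.NG

/-- There are `c > 0` and `m₀` such that for every `m ≥ m₀` there are a circuit `D` on `n = 2 m`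
variables `x`, three ordered diagrams `P 0, P 1, P 2` and a CNF formula `φ` such that

* `D` is a d-DNNF with literals and constants as leaves and at most `200 m` gates,
* `D` computes the disjoint union of the functions of the three diagrams, each of which has width 9
  and reads every variable once,
* `φ` is a 3-CNF formula on the `n` variables `x` and `k ≤ 9 m` variables `y`, with at most `25 m`
  clauses, in which all the variables occur,
* for every `x` with `D x = 0` there is exactly one `y` with `φ (x, y)`, and for `D x = 1` there is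
  none; hence `#φ + #D = 2 ^ n`,
* every DNNF `G (x, z)`, with any further variables `z`, whose leaves are arbitrary functions
  depending on at most `2 n / 3` of the variables `x` and on any of the variables `z`, such that
  `∃ z, G (x, z)` is equivalent to `¬ D x`, has at least `2 ^ (c n)` gates. -/
theorem result : ∃ (c : ℝ) (m₀ : ℕ), 0 < c ∧ ∀ m ≥ m₀,
    ∃ (D : Circuit (Fin m ⊕ Fin m)) (P : Fin 3 → OBDD (Fin m ⊕ Fin m) 9)
      (k : ℕ) (φ : CNF ((Fin m ⊕ Fin m) ⊕ Fin k)),
      (D.IsDNNF ∧ D.IsDeterministic ∧ D.LiteralLeaves ∧ D.size ≤ 200 * m) ∧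
      ((∀ i, (P i).steps.length = 2 * m) ∧
        (∀ x, D.eval x = true ↔ ∃ i, (P i).eval x = true) ∧
        (∀ i j, i ≠ j → ∀ x, ¬ ((P i).eval x = true ∧ (P j).eval x = true))) ∧
      (k ≤ 9 * m ∧ φ.length ≤ 25 * m ∧ (∀ K ∈ φ, K.length ≤ 3) ∧
        (∀ v, ∃ K ∈ φ, ∃ b, (v, b) ∈ K)) ∧
      ((∀ x, D.eval x = false → ∃! y : Fin k → Bool, Sat φ (Sum.elim x y)) ∧
        (∀ x, D.eval x = true → ∀ y : Fin k → Bool, ¬ Sat φ (Sum.elim x y)) ∧
        Nat.card {z : (Fin m ⊕ Fin m) ⊕ Fin k → Bool // Sat φ z} +
          Nat.card {x : Fin m ⊕ Fin m → Bool // D.eval x = true} = 2 ^ (2 * m)) ∧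
      ∀ (Z : Type) [DecidableEq Z] (G : Circuit ((Fin m ⊕ Fin m) ⊕ Z)), G.IsDNNF →
        (∀ i ≤ G.top, ∀ S f, G.gate i = .leaf S f →
          3 * (univ.filter fun v : Fin m ⊕ Fin m => Sum.inl v ∈ S).card ≤ 2 * (2 * m)) →
        (∀ x, (∃ z, G.eval (Sum.elim x z) = true) ↔ D.eval x = false) →
        (2 : ℝ) ^ (c * (2 * m : ℕ)) ≤ G.size :=
  final (thm_Low thm_Exp thm_Far thm_Rect thm_Mom thm_Cover) (thm_Diag thm_Cyc) thm_Comp thm_Cnf

end Pool.Agent.Results.MP_4ed1f9_lc.NegationGap
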